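import Mathlib
import Pool.Agent.V1122.Ends.Ends

/-!
# A metrizably-ended torsion-free group without finite Kurosh rank
-/

namespace Pool.Agent.Results.MP_879d44_al.MetrizableEnds

open Pool.Agent.V1122.Ends

/-- **Metrizable ends without finite Kurosh rank.**  There is a countable torsion-free group `G`
whose space of ends is metrizable (indeed the Boolean algebra of almost invariant subsets of `G`
is countable), but which is not a free product of finitely many freely indecomposable groups.
The group is `⟨a_n, b_n (n ≥ 0) | a_n = a_{n+1}² b_n²⟩`. -/
theorem result : ∃ (G : Type) (_ : Group G), Countable G ∧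
    (∀ g : G, g ≠ 1 → ¬ IsOfFinOrder g) ∧
    Countable (AlmostInvariant G) ∧ MetrizablyEnded G ∧ ¬ FiniteKuroshRank G := by
  have h := countable_almostInvariant
  exact ⟨Gam, inferInstance, inferInstance, gam_torsionFree, h, metrizablyEnded_of_countable Gam,
    gam_not_finiteKurosh⟩

end Pool.Agent.Results.MP_879d44_al.MetrizableEnds
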